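import Pool.Agent.helper16.EXT.Spec3T

set_option autoImplicit false

open Finset

namespace Pool.Agent.EXT

open Pool.Agent.EXC

theorem I3F_three {F : Type} [Field F] [Finite F] (h3 : ¬ 3 ∣ Nat.card F) : (3 : F) ≠ 0 := by
  intro h
  apply h3
  have h1 : addOrderOf (1 : F) = 3 := by
    apply addOrderOf_eq_prime
    · rw [nsmul_one]
      exact_mod_cast h
    · exact one_ne_zero
  rw [← h1]
  exact addOrderOf_dvd_natCard (1 : F)

theorem I3F_finite' (G : Type) [Group G] [Finite G] : Finite (MulAut G) :=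
  Finite.of_injective (fun e : MulAut G => (e : G → G)) DFunLike.coe_injective

theorem I3F (hIPR : IPR_stmt) (hIM0 : IM0_stmt) (hIM1 : IM1_stmt) (hIM2 : IM2_stmt) (hGEF : GEF_stmt) (hPCS : PCS_stmt) (hTFS : TFS_stmt) : I3F_stmt := by
  intro K _ _ τ hτ h3 x hx hne
  have hfin : Finite (MulAut (GF τ)) := I3F_finite' (GF τ)
  have hN0 : orderOf x ≠ 0 := (orderOf_pos x).ne'
  have hN1 : orderOf x ≠ 1 := fun h => hne (orderOf_eq_one_iff.1 h)
  have hl : (orderOf x).minFac.Prime := Nat.minFac_prime hN1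
  have hd : (orderOf x).minFac ∣ orderOf x := Nat.minFac_dvd _
  obtain ⟨N, hN⟩ := hd
  have hNne : N ≠ 0 := by
    rintro rfl
    rw [mul_zero] at hN
    exact hN0 hN
  have hNd : N ∣ orderOf x := ⟨(orderOf x).minFac, by rw [mul_comm]; exact hN⟩
  have hy : orderOf (x ^ N) = (orderOf x).minFac := by
    rw [orderOf_pow_of_dvd hNne hNd]
    apply Nat.div_eq_of_eq_mul_left (Nat.pos_of_ne_zero hNne)
    exact hN
  have hyp : (orderOf (x ^ N)).Prime := by rw [hy]; exact hl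
  have hyR : RAF τ (x ^ N) := hIPR K τ x N hx
  have hy1 : x ^ N ≠ 1 := by
    intro h
    rw [h, orderOf_one] at hyp
    exact Nat.not_prime_one hyp
  have hth : ip C6 th th = 2 := f_DE6.2.th2
  have hup : ∀ k, k ∈ Pool.Agent.GS.CSet 3 (x ^ N) → k ∈ Pool.Agent.GS.CSet 3 x :=
    fun k hk => (A3.g_ZGP (GF τ) x 3 N k).1 hk
  by_cases hc1 : ∃ c c' : Lm C6 K, ExS τ c ∧ ExS τ c' ∧ ImF τ (x ^ N) c c' ∧ fm C6 c c' ≠ 0
  · obtain ⟨c, c', h1, h2, h4, h5⟩ := hc1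
    obtain ⟨m, -, -, hm⟩ := hPCS K τ hτ c c' h1 h2
    have hm2 : m = -2 := (hTFS K τ hτ c c' m hm).2.2.2.2.2.2.1.1 h5
    subst hm2
    exact ⟨2, hup 2 (hIM2 K τ hτ h3 (x ^ N) hyR hyp c c' h1 h2 h4 hm), by norm_num⟩
  · have hfm : ∀ c c' : Lm C6 K, ExS τ c → ExS τ c' → ImF τ (x ^ N) c c' → fm C6 c c' = 0 := by
      intro c c' h1 h2 h4
      by_contra h5
      exact hc1 ⟨c, c', h1, h2, h4, h5⟩
    by_cases hc2 : ∃ c c' : Lm C6 K, ExS τ c ∧ ExS τ c' ∧ ImF τ (x ^ N) c c' ∧ TpS τ c c' (-1)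
    · obtain ⟨c, c', h1, h2, h4, h5⟩ := hc2
      exact ⟨3, hup 3 (hIM1 K τ hτ (I3F_three h3) (x ^ N) hyR hfm c c' h1 h2 h4 h5), le_refl 3⟩
    · have hnn : ∀ (c c' : Lm C6 K) (m : ℤ), ExS τ c → ExS τ c' → ImF τ (x ^ N) c c' → TpS τ c c' m → 0 ≤ m := by
        intro c c' m h1 h2 h4 h5
        have h6 : m ≠ -2 := by
          intro h7
          exact (hTFS K τ hτ c c' m h5).2.2.2.2.2.2.1.2 h7 (hfm c c' h1 h2 h4)
        have h7 : m ≠ -1 := by
          intro h8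
          subst h8
          exact hc2 ⟨c, c', h1, h2, h4, h5⟩
        obtain ⟨k, -, β, hβ, hm, -⟩ := h5
        have h8 := ip_abs_le (C := C6) hth hβ.1
        omega
      obtain ⟨a, a', m, h1, h2, h4, h5, h6⟩ := hGEF K τ hτ (x ^ N) hyR hy1
      have h7 := hnn a a' m h1 h2 h4 h5
      have h8 : m = 0 := by omega
      subst h8
      exact ⟨3, hup 3 (hIM0 K τ hτ (x ^ N) hyR hnn a a' h1 h2 h4 h5), le_refl 3⟩

end Pool.Agent.EXT
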